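import Pool.Agent.Helper19.Un.Stmts

set_option autoImplicit false

/-!
# Module CELLD : the half-open cell is a fundamental domain of the group of Heisenberg translations
-/

namespace Pool.Agent.Helper19.Un

open MeasureTheory Topology
open scoped ComplexConjugate

variable {m : ℕ}

theorem celld_finrank (m : ℕ) : Module.finrank ℝ (E m) = 2 * m := by
  have h := Module.finrank_mul_finrank ℝ ℂ (E m)
  rw [Complex.finrank_real_complex, finrank_euclideanSpace, Fintype.card_fin] at h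
  exact h.symm

/-- coordinates with respect to `β` -/
theorem celld_coord {β : Fin (2 * m) → E m} (hβ : LinearIndependent ℝ β) (z : E m) :
    ∃ y : Fin (2 * m) → ℝ, z = ∑ i, y i • β i := by
  have hinj : Function.Injective (Fintype.linearCombination ℝ β) :=
    linearIndependent_iff_injective_fintypeLinearCombination.1 hβ
  have hsur : Function.Surjective (Fintype.linearCombination ℝ β) := by
    have h1 : Module.finrank ℝ (Fin (2 * m) → ℝ) = Module.finrank ℝ (E m) := by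
      rw [celld_finrank, Module.finrank_fintype_fun_eq_card, Fintype.card_fin]
    exact (LinearMap.injective_iff_surjective_of_finrank_eq_finrank h1).1 hinj
  obtain ⟨y, hy⟩ := hsur z
  exact ⟨y, by rw [← hy, Fintype.linearCombination_apply]⟩

theorem celld_int {x y : ℝ} {k : ℤ} (hx : x ∈ Set.Ico (0 : ℝ) 1) (hy : y ∈ Set.Ico (0 : ℝ) 1)
    (h : y = x + k) : k = 0 := by
  obtain ⟨a1, a2⟩ := hx
  obtain ⟨a3, a4⟩ := hy
  rw [h] at a3 a4
  have f1 : (-1 : ℝ) < k := by linarith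
  have f2 : (k : ℝ) < 1 := by linarith
  have f3 : (-1 : ℤ) < k := by exact_mod_cast f1
  have f4 : k < (1 : ℤ) := by exact_mod_cast f2
  omega

theorem st_CELLD : ST_CELLD := by
  intro m N β c hN p hp
  have hc := hN.cpos
  -- existence
  obtain ⟨y, hy⟩ := celld_coord hN.li p.2
  obtain ⟨a, ha⟩ := (hN.lat (∑ i, ((-⌊y i⌋ : ℤ) : ℝ) • β i)).2 ⟨fun i => -⌊y i⌋, rfl⟩
  set b : E m := ∑ i, ((-⌊y i⌋ : ℤ) : ℝ) • β i with hb
  set t : ℝ := (p.1.im - (inner ℂ b p.2).im + a.im) / c with ht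
  have hl : N ((((-⌊t⌋ : ℤ) : ℂ)) * (c : ℂ) * Complex.I) 0 := (hN.cen _).2 ⟨-⌊t⌋, rfl⟩
  have hab : N ((((-⌊t⌋ : ℤ) : ℂ)) * (c : ℂ) * Complex.I + a) b := by
    have h := hN.mul _ _ _ _ hl ha
    rw [inner_zero_left, sub_zero, zero_add] at h
    exact h
  have hre0 : ((((-⌊t⌋ : ℤ) : ℂ)) * (c : ℂ) * Complex.I).re = 0 := by
    simp [Complex.mul_re]
  have him0 : ((((-⌊t⌋ : ℤ) : ℂ)) * (c : ℂ) * Complex.I).im = c * (-⌊t⌋ : ℤ) := by
    simp [Complex.mul_im]
    ring
  have key : ∃ (x : (Fin (2 * m) → ℝ) × ℝ) (u : ℝ), (∀ i, x.1 i ∈ Set.Ico (0 : ℝ) 1) ∧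
      x.2 ∈ Set.Ico (0 : ℝ) 1 ∧ 0 < u ∧
      act (T ((((-⌊t⌋ : ℤ) : ℂ)) * (c : ℂ) * Complex.I + a) b) p = cellpt β c x u := by
    refine ⟨(fun i => Int.fract (y i), Int.fract t), hgt p,
      fun i => ⟨Int.fract_nonneg _, Int.fract_lt_one _⟩,
      ⟨Int.fract_nonneg _, Int.fract_lt_one _⟩, hp, ?_⟩
    have h2 : (act (T ((((-⌊t⌋ : ℤ) : ℂ)) * (c : ℂ) * Complex.I + a) b) p).2
        = ∑ i, Int.fract (y i) • β i := by
      rw [act_T]
      change p.2 + b = _
      rw [hy, hb, ← Finset.sum_add_distrib]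
      refine Finset.sum_congr rfl fun i _ => ?_
      rw [← add_smul]
      congr 1
      push_cast
      unfold Int.fract
      ring
    have h1 := hgt_T (hN.norm _ _ hab) p
    have h3 : (act (T ((((-⌊t⌋ : ℤ) : ℂ)) * (c : ℂ) * Complex.I + a) b) p).1.im
        = c * Int.fract t := by
      rw [act_T]
      change (p.1 - inner ℂ b p.2 + ((((-⌊t⌋ : ℤ) : ℂ)) * (c : ℂ) * Complex.I + a)).im = _
      rw [Complex.add_im, Complex.sub_im, Complex.add_im, him0]
      unfold Int.fract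
      push_cast
      have : c * t = p.1.im - (inner ℂ b p.2).im + a.im := by
        rw [ht]; field_simp
      linear_combination -this
    unfold cellpt
    refine Prod.ext (Complex.ext ?_ h3) h2
    change (act (T ((((-⌊t⌋ : ℤ) : ℂ)) * (c : ℂ) * Complex.I + a) b) p).1.re
      = -(hgt p + ‖∑ i, Int.fract (y i) • β i‖ ^ 2) / 2
    rw [← h2, ← h1]
    unfold hgt
    ring
  refine ⟨((((-⌊t⌋ : ℤ) : ℂ)) * (c : ℂ) * Complex.I + a, b), ⟨hab, key⟩, ?_⟩
  · -- uniqueness
    suffices hu : ∀ a b a' b', N a b → N a' b' →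
        (∃ (x : (Fin (2 * m) → ℝ) × ℝ) (u : ℝ), (∀ i, x.1 i ∈ Set.Ico (0 : ℝ) 1) ∧
          x.2 ∈ Set.Ico (0 : ℝ) 1 ∧ 0 < u ∧ act (T a b) p = cellpt β c x u) →
        (∃ (x : (Fin (2 * m) → ℝ) × ℝ) (u : ℝ), (∀ i, x.1 i ∈ Set.Ico (0 : ℝ) 1) ∧
          x.2 ∈ Set.Ico (0 : ℝ) 1 ∧ 0 < u ∧ act (T a' b') p = cellpt β c x u) →
        a' = a ∧ b' = b by
      rintro ⟨a', b'⟩ ⟨h1, h2⟩
      have h3 := hu _ _ a' b' hab h1 key h2
      exact Prod.ext h3.1 h3.2
    intro a b a' b' h h' hx hx'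
    obtain ⟨x, u, hx1, hx2, hu, hx⟩ := hx
    obtain ⟨x', u', hx1', hx2', hu', hx'⟩ := hx'
    obtain ⟨k, hk⟩ := (hN.lat b).1 ⟨a, h⟩
    obtain ⟨k', hk'⟩ := (hN.lat b').1 ⟨a', h'⟩
    have e2 : p.2 + b = ∑ i, x.1 i • β i := by
      have := congrArg Prod.snd hx
      rw [act_T] at this
      exact this
    have e2' : p.2 + b' = ∑ i, x'.1 i • β i := by
      have := congrArg Prod.snd hx'
      rw [act_T] at this
      exact this
    have e3 : ∑ i, (x'.1 i - x.1 i - ((k' i : ℝ) - k i)) • β i = 0 := by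
      have : ∑ i, (x'.1 i - x.1 i - ((k' i : ℝ) - k i)) • β i
          = (∑ i, x'.1 i • β i - ∑ i, x.1 i • β i)
            - (∑ i, (k' i : ℝ) • β i - ∑ i, (k i : ℝ) • β i) := by
        simp only [sub_smul, Finset.sum_sub_distrib]
      rw [this, ← e2, ← e2', ← hk, ← hk']
      abel
    have e4 := Fintype.linearIndependent_iff.1 hN.li _ e3
    have e5 : ∀ i, k' i - k i = 0 := by
      intro i
      refine celld_int (hx1 i) (hx1' i) ?_
      have := e4 i
      push_cast
      linarith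
    have hbb : b' = b := by
      rw [hk, hk']
      refine Finset.sum_congr rfl fun i _ => ?_
      have : k' i = k i := by linarith [e5 i]
      rw [this]
    subst hbb
    have h4 := hN.mul _ _ _ _ h' (hN.inv _ _ h)
    rw [add_neg_cancel, inner_neg_right, sub_neg_eq_add] at h4
    have h5 : a' + conj a + inner ℂ b' b' = a' - a := by
      linear_combination add_conj_of (hN.norm _ _ h)
    rw [h5] at h4
    obtain ⟨l, hl⟩ := (hN.cen _).1 h4
    have g1 : (act (T a b') p).1.im = c * x.2 := by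
      rw [hx]; rfl
    have g2 : (act (T a' b') p).1.im = c * x'.2 := by
      rw [hx']; rfl
    rw [act_T] at g1 g2
    simp only [Complex.add_im, Complex.sub_im] at g1 g2
    have g3 : a'.im - a.im = c * l := by
      rw [← Complex.sub_im, hl]
      simp [Complex.mul_im]
      ring
    have g4 : c * x'.2 = c * (x.2 + l) := by linear_combination g1 - g2 + g3
    have g5 : x'.2 = x.2 + l := mul_left_cancel₀ hc.ne' g4
    have g6 : l = 0 := celld_int hx2 hx2' g5
    rw [g6] at hl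
    refine ⟨?_, rfl⟩
    have : a' - a = 0 := by rw [hl]; simp
    exact sub_eq_zero.1 this

end Pool.Agent.Helper19.Un
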