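import Pool.Agent.Helper19.Un.Stmts

set_option autoImplicit false

/-!
# Module CELLI : the hyperbolic measure in the coordinates `(x, u)`
(port of `Pool.Agent.Helper34.Pic.UNF`)
-/

namespace Pool.Agent.Helper19.Un

open MeasureTheory Topology
open scoped ComplexConjugate

variable {m : ℕ}

theorem celli_finrank (m : ℕ) : Module.finrank ℝ (E m) = 2 * m := by
  have h := Module.finrank_mul_finrank ℝ ℂ (E m)
  rw [Complex.finrank_real_complex, finrank_euclideanSpace, Fintype.card_fin] at h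
  exact h.symm

/-- the linear part of the parametrisation -/
noncomputable def celliP (β : Fin (2 * m) → E m) (c : ℝ) :
    (ℝ × ((Fin (2 * m) → ℝ) × ℝ)) →ₗ[ℝ] Pt m where
  toFun y := (⟨-y.1 / 2, c * y.2.2⟩, ∑ i, y.2.1 i • β i)
  map_add' x y := by
    refine Prod.ext (Complex.ext ?_ ?_) ?_
    · simp; ring
    · simp; ring
    · simp [add_smul, Finset.sum_add_distrib]
  map_smul' r x := by
    refine Prod.ext (Complex.ext ?_ ?_) ?_
    · simp; ring
    · simp; ring
    · simp [mul_smul, Finset.smul_sum]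

theorem celliP_apply (β : Fin (2 * m) → E m) (c : ℝ) (y : ℝ × ((Fin (2 * m) → ℝ) × ℝ)) :
    celliP β c y = ((⟨-y.1 / 2, c * y.2.2⟩ : ℂ), ∑ i, y.2.1 i • β i) := rfl

theorem celliP_inj {β : Fin (2 * m) → E m} {c : ℝ} (hc : 0 < c) (hβ : LinearIndependent ℝ β) :
    Function.Injective (celliP β c) := by
  rw [injective_iff_map_eq_zero]
  intro y hy
  rw [celliP_apply] at hy
  have h1 : (⟨-y.1 / 2, c * y.2.2⟩ : ℂ) = 0 := congrArg Prod.fst hy
  have h2 : ∑ i, y.2.1 i • β i = 0 := congrArg Prod.snd hy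
  have h3 : -y.1 / 2 = 0 := congrArg Complex.re h1
  have h4 : c * y.2.2 = 0 := congrArg Complex.im h1
  have h5 := Fintype.linearIndependent_iff.1 hβ _ h2
  refine Prod.ext ?_ (Prod.ext ?_ ?_)
  · change y.1 = 0
    linarith
  · exact funext h5
  · change y.2.2 = 0
    exact (mul_eq_zero.1 h4).resolve_left hc.ne'

theorem celli_dim (m : ℕ) :
    Module.finrank ℝ (ℝ × ((Fin (2 * m) → ℝ) × ℝ)) = Module.finrank ℝ (Pt m) := by
  rw [Module.finrank_prod, Module.finrank_prod, Module.finrank_prod, celli_finrank,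
    Module.finrank_fintype_fun_eq_card, Fintype.card_fin, Module.finrank_self,
    Complex.finrank_real_complex]
  ring

/-- the linear part as an equivalence -/
noncomputable def celliE (β : Fin (2 * m) → E m) (c : ℝ) (hc : 0 < c)
    (hβ : LinearIndependent ℝ β) : (ℝ × ((Fin (2 * m) → ℝ) × ℝ)) ≃L[ℝ] Pt m :=
  LinearEquiv.toContinuousLinearEquiv
    (LinearMap.linearEquivOfInjective (celliP β c) (celliP_inj hc hβ) (celli_dim m))

theorem celliE_apply (β : Fin (2 * m) → E m) (c : ℝ) (hc : 0 < c)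
    (hβ : LinearIndependent ℝ β) (y : ℝ × ((Fin (2 * m) → ℝ) × ℝ)) :
    celliE β c hc hβ y = ((⟨-y.1 / 2, c * y.2.2⟩ : ℂ), ∑ i, y.2.1 i • β i) := rfl

/-- the shear -/
noncomputable def celliS (p : Pt m) : Pt m := (-((‖p.2‖ ^ 2 / 2 : ℝ) : ℂ) + p.1, p.2)

/-- the inverse shear -/
noncomputable def celliU (p : Pt m) : Pt m := (((‖p.2‖ ^ 2 / 2 : ℝ) : ℂ) + p.1, p.2)

theorem celliU_S (p : Pt m) : celliU (celliS p) = p := by
  refine Prod.ext ?_ rfl
  change ((‖p.2‖ ^ 2 / 2 : ℝ) : ℂ) + (-((‖p.2‖ ^ 2 / 2 : ℝ) : ℂ) + p.1) = p.1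
  ring

theorem celliS_U (p : Pt m) : celliS (celliU p) = p := by
  refine Prod.ext ?_ rfl
  change -((‖p.2‖ ^ 2 / 2 : ℝ) : ℂ) + (((‖p.2‖ ^ 2 / 2 : ℝ) : ℂ) + p.1) = p.1
  ring

theorem celliS_cont : Continuous (celliS : Pt m → Pt m) := by
  unfold celliS
  have h1 : Continuous fun p : Pt m => ‖p.2‖ ^ 2 / 2 := (continuous_snd.norm.pow 2).div_const 2
  exact ((Complex.continuous_ofReal.comp h1).neg.add continuous_fst).prodMk continuous_snd

theorem celliU_cont : Continuous (celliU : Pt m → Pt m) := by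
  unfold celliU
  have h1 : Continuous fun p : Pt m => ‖p.2‖ ^ 2 / 2 := (continuous_snd.norm.pow 2).div_const 2
  exact ((Complex.continuous_ofReal.comp h1).add continuous_fst).prodMk continuous_snd

theorem celliS_mp : MeasurePreserving (celliS : Pt m → Pt m) (volume : Measure (Pt m)) volume := by
  have h1 : MeasurePreserving (fun p : E m × ℂ => (id p.1, -((‖p.1‖ ^ 2 / 2 : ℝ) : ℂ) + p.2))
      ((volume : Measure (E m)).prod (volume : Measure ℂ))
      ((volume : Measure (E m)).prod (volume : Measure ℂ)) := by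
    refine MeasurePreserving.skew_product
      (g := fun (a : E m) (b : ℂ) => -((‖a‖ ^ 2 / 2 : ℝ) : ℂ) + b)
      (MeasurePreserving.id (volume : Measure (E m))) ?_ ?_
    · have h1 : Continuous fun p : E m × ℂ => ‖p.1‖ ^ 2 / 2 :=
        (continuous_fst.norm.pow 2).div_const 2
      have : Continuous (Function.uncurry fun (a : E m) (b : ℂ) =>
          -((‖a‖ ^ 2 / 2 : ℝ) : ℂ) + b) :=
        (Complex.continuous_ofReal.comp h1).neg.add continuous_snd
      exact this.measurable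
    · refine Filter.Eventually.of_forall fun a => ?_
      exact map_add_left_eq_self (volume : Measure ℂ) (-((‖a‖ ^ 2 / 2 : ℝ) : ℂ))
  have hs : MeasurePreserving (Prod.swap : ℂ × E m → E m × ℂ)
      ((volume : Measure ℂ).prod (volume : Measure (E m)))
      ((volume : Measure (E m)).prod (volume : Measure ℂ)) := Measure.measurePreserving_swap
  have hs' : MeasurePreserving (Prod.swap : E m × ℂ → ℂ × E m)
      ((volume : Measure (E m)).prod (volume : Measure ℂ))
      ((volume : Measure ℂ).prod (volume : Measure (E m))) := Measure.measurePreserving_swap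
  exact hs'.comp (h1.comp hs)

theorem celliS_E (β : Fin (2 * m) → E m) (c : ℝ) (hc : 0 < c)
    (hβ : LinearIndependent ℝ β) (y : ℝ × ((Fin (2 * m) → ℝ) × ℝ)) :
    celliS (celliE β c hc hβ y) = cellpt β c y.2 y.1 := by
  rw [celliE_apply]
  unfold celliS cellpt
  refine Prod.ext (Complex.ext ?_ ?_) rfl
  · simp only [Complex.add_re, Complex.neg_re, Complex.ofReal_re]
    ring
  · simp only [Complex.add_im, Complex.neg_im, Complex.ofReal_im]
    ring

/-- the coordinates of a point -/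
noncomputable def celliC (β : Fin (2 * m) → E m) (c : ℝ) (hc : 0 < c)
    (hβ : LinearIndependent ℝ β) (p : Pt m) : ℝ × ((Fin (2 * m) → ℝ) × ℝ) :=
  (celliE β c hc hβ).symm (celliU p)

theorem celliC_cont (β : Fin (2 * m) → E m) (c : ℝ) (hc : 0 < c)
    (hβ : LinearIndependent ℝ β) : Continuous (celliC β c hc hβ) :=
  (celliE β c hc hβ).symm.continuous.comp celliU_cont

theorem celliC_cellpt (β : Fin (2 * m) → E m) (c : ℝ) (hc : 0 < c)
    (hβ : LinearIndependent ℝ β) (x : (Fin (2 * m) → ℝ) × ℝ) (u : ℝ) :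
    celliC β c hc hβ (cellpt β c x u) = (u, x) := by
  have h := celliS_E β c hc hβ (u, x)
  unfold celliC
  rw [← h, celliU_S, ContinuousLinearEquiv.symm_apply_apply]

theorem cellpt_celliC (β : Fin (2 * m) → E m) (c : ℝ) (hc : 0 < c)
    (hβ : LinearIndependent ℝ β) (p : Pt m) :
    cellpt β c (celliC β c hc hβ p).2 (celliC β c hc hβ p).1 = p := by
  rw [← celliS_E β c hc hβ]
  unfold celliC
  rw [ContinuousLinearEquiv.apply_symm_apply, celliS_U]

/-- the half-open cube -/
def celliQ (m : ℕ) : Set ((Fin (2 * m) → ℝ) × ℝ) :=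
  (Set.univ.pi fun _ => Set.Ico (0 : ℝ) 1) ×ˢ Set.Ico (0 : ℝ) 1

theorem celliQ_meas : MeasurableSet (celliQ m) :=
  (MeasurableSet.univ_pi fun _ => measurableSet_Ico).prod measurableSet_Ico

theorem celliQ_ae : celliQ m =ᵐ[volume] Set.Icc (0 : (Fin (2 * m) → ℝ) × ℝ) 1 := by
  have h1 := Measure.univ_pi_Ico_ae_eq_Icc (μ := fun _ : Fin (2 * m) => (volume : Measure ℝ))
        (f := (0 : Fin (2 * m) → ℝ)) (g := (1 : Fin (2 * m) → ℝ))
  have h2 : Set.Ico (0 : ℝ) 1 =ᵐ[volume] Set.Icc (0 : ℝ) 1 := Ico_ae_eq_Icc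
  have h3 : Set.Icc (0 : (Fin (2 * m) → ℝ) × ℝ) 1
      = Set.Icc (0 : Fin (2 * m) → ℝ) 1 ×ˢ Set.Icc (0 : ℝ) 1 := by
    rw [Set.Icc_prod_Icc]
    rfl
  rw [h3]
  exact Measure.set_prod_ae_eq h1 h2

/-- Haar constant of the parametrisation -/
theorem celli_const (β : Fin (2 * m) → E m) (c : ℝ) (hc : 0 < c)
    (hβ : LinearIndependent ℝ β) : ∃ K : ENNReal, K ≠ 0 ∧ K ≠ ⊤ ∧
    (volume : Measure (Pt m)) = K • Measure.map (celliE β c hc hβ) volume := by
  have i1 : (volume : Measure (Pt m)).IsAddHaarMeasure := by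
    rw [Measure.volume_eq_prod]
    infer_instance
  have i3 : (volume : Measure ((Fin (2 * m) → ℝ) × ℝ)).IsAddHaarMeasure := by
    rw [Measure.volume_eq_prod]
    infer_instance
  have i2 : (volume : Measure (ℝ × ((Fin (2 * m) → ℝ) × ℝ))).IsAddHaarMeasure := by
    rw [Measure.volume_eq_prod]
    infer_instance
  have h1 : (Measure.map (⇑(celliE β c hc hβ))
      (volume : Measure (ℝ × ((Fin (2 * m) → ℝ) × ℝ)))).IsAddHaarMeasure :=
    ContinuousLinearEquiv.isAddHaarMeasure_map (celliE β c hc hβ) volume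
  have h2 := Measure.isAddLeftInvariant_eq_smul (volume : Measure (Pt m))
    (Measure.map (⇑(celliE β c hc hβ)) (volume : Measure (ℝ × ((Fin (2 * m) → ℝ) × ℝ))))
  have h3 := Measure.addHaarScalarFactor_pos_of_isAddHaarMeasure (volume : Measure (Pt m))
    (Measure.map (⇑(celliE β c hc hβ)) (volume : Measure (ℝ × ((Fin (2 * m) → ℝ) × ℝ))))
  refine ⟨Measure.addHaarScalarFactor (volume : Measure (Pt m))
    (Measure.map (⇑(celliE β c hc hβ)) (volume : Measure (ℝ × ((Fin (2 * m) → ℝ) × ℝ)))), ?_,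
    ENNReal.coe_ne_top, h2⟩
  exact_mod_cast h3.ne'

theorem celli_lint (β : Fin (2 * m) → E m) (c : ℝ) (hc : 0 < c)
    (hβ : LinearIndependent ℝ β) {K : ENNReal}
    (hK : (volume : Measure (Pt m)) = K • Measure.map (celliE β c hc hβ) volume)
    (G : Pt m → ENNReal) (hG : Measurable G) :
    ∫⁻ p, G p = K * ∫⁻ u : ℝ, ∫⁻ x : (Fin (2 * m) → ℝ) × ℝ, G (cellpt β c x u) := by
  have hG2 : Measurable fun p => G (celliS p) := hG.comp celliS_cont.measurable
  have hL : Measurable (celliE β c hc hβ) := (celliE β c hc hβ).continuous.measurable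
  rw [← celliS_mp.lintegral_comp hG]
  have e : ∫⁻ a, G (celliS (celliE β c hc hβ a))
      ∂((volume : Measure ℝ).prod (volume : Measure ((Fin (2 * m) → ℝ) × ℝ))) =
      ∫⁻ u : ℝ, ∫⁻ x : (Fin (2 * m) → ℝ) × ℝ, G (celliS (celliE β c hc hβ (u, x))) :=
    lintegral_prod _ (hG2.comp hL).aemeasurable
  rw [hK, lintegral_smul_measure, lintegral_map hG2 hL, smul_eq_mul,
    Measure.volume_eq_prod ℝ ((Fin (2 * m) → ℝ) × ℝ), e]
  congr 1
  refine lintegral_congr fun u => lintegral_congr fun x => ?_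
  rw [celliS_E]

theorem celli_cont (β : Fin (2 * m) → E m) (c : ℝ) (hc : 0 < c)
    (hβ : LinearIndependent ℝ β) :
    Continuous fun y : ℝ × ((Fin (2 * m) → ℝ) × ℝ) => cellpt β c y.2 y.1 := by
  have h2 := celliS_cont.comp (celliE β c hc hβ).continuous
  refine h2.congr fun y => ?_
  exact celliS_E β c hc hβ y

theorem st_CELLI : ST_CELLI := by
  intro m β c hc hβ
  obtain ⟨K, hK0, hKt, hK⟩ := celli_const β c hc hβ
  refine ⟨K, hK0, hKt, fun G hG => ?_⟩
  have hset : {p : Pt m | ∃ (x : (Fin (2 * m) → ℝ) × ℝ) (u : ℝ),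
      (∀ i, x.1 i ∈ Set.Ico (0 : ℝ) 1) ∧ x.2 ∈ Set.Ico (0 : ℝ) 1 ∧ 0 < u ∧ p = cellpt β c x u}
      = celliC β c hc hβ ⁻¹' (Set.Ioi 0 ×ˢ celliQ m) := by
    ext p
    constructor
    · rintro ⟨x, u, h1, h2, h3, rfl⟩
      rw [Set.mem_preimage, celliC_cellpt]
      exact ⟨h3, fun i _ => h1 i, h2⟩
    · rintro ⟨h1, h2, h3⟩
      exact ⟨(celliC β c hc hβ p).2, (celliC β c hc hβ p).1, fun i => h2 i (Set.mem_univ i), h3,
        h1, (cellpt_celliC β c hc hβ p).symm⟩
  rw [hset]
  set S : Set (Pt m) := celliC β c hc hβ ⁻¹' (Set.Ioi 0 ×ˢ celliQ m) with hS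
  have hSm : MeasurableSet S :=
    (celliC_cont β c hc hβ).measurable (measurableSet_Ioi.prod celliQ_meas)
  have hd : Measurable fun p : Pt m => ENNReal.ofReal ((hgt p ^ (m + 2))⁻¹) :=
    ENNReal.measurable_ofReal.comp ((measurable_hgt.pow_const (m + 2)).inv)
  have hm : Measurable (S.indicator G) := hG.indicator hSm
  have hm2 : Measurable fun p : Pt m =>
      ENNReal.ofReal ((hgt p ^ (m + 2))⁻¹) * S.indicator G p := hd.mul hm
  have e0 : ∫⁻ p in S, G p ∂(hyp m) =
      ∫⁻ p, (SD m).indicator (fun p => ENNReal.ofReal ((hgt p ^ (m + 2))⁻¹) *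
        S.indicator G p) p := by
    rw [← lintegral_indicator hSm]
    unfold hyp
    rw [lintegral_withDensity_eq_lintegral_mul _ hd hm, lintegral_indicator measurableSet_SD]
    rfl
  rw [e0, celli_lint β c hc hβ hK _ (hm2.indicator measurableSet_SD)]
  congr 1
  rw [← lintegral_indicator measurableSet_Ioi]
  refine lintegral_congr fun u => ?_
  by_cases hu : 0 < u
  · rw [Set.indicator_of_mem (show u ∈ Set.Ioi (0 : ℝ) from hu)]
    have hcu : Measurable fun x : (Fin (2 * m) → ℝ) × ℝ => G (cellpt β c x u) :=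
      hG.comp ((celli_cont β c hc hβ).comp
        (continuous_const.prodMk continuous_id : Continuous fun x : (Fin (2 * m) → ℝ) × ℝ =>
          ((u, x) : ℝ × ((Fin (2 * m) → ℝ) × ℝ)))).measurable
    have e1 : ∀ x : (Fin (2 * m) → ℝ) × ℝ, (SD m).indicator (fun p =>
        ENNReal.ofReal ((hgt p ^ (m + 2))⁻¹) * S.indicator G p) (cellpt β c x u) =
        (celliQ m).indicator (fun x => ENNReal.ofReal ((u ^ (m + 2))⁻¹) *
          G (cellpt β c x u)) x := by
      intro x
      have hSD : cellpt β c x u ∈ SD m := by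
        change 0 < hgt (cellpt β c x u)
        rw [hgt_cellpt]
        exact hu
      rw [Set.indicator_of_mem hSD, hgt_cellpt]
      have hiff : cellpt β c x u ∈ S ↔ x ∈ celliQ m := by
        rw [hS, Set.mem_preimage, celliC_cellpt]
        exact ⟨fun h => h.2, fun h => ⟨hu, h⟩⟩
      by_cases hx : x ∈ celliQ m
      · rw [Set.indicator_of_mem hx, Set.indicator_of_mem (hiff.2 hx)]
      · rw [Set.indicator_of_notMem hx, Set.indicator_of_notMem (fun h => hx (hiff.1 h)),
          mul_zero]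
    rw [lintegral_congr e1, lintegral_indicator celliQ_meas, lintegral_const_mul _ hcu,
      Measure.restrict_congr_set celliQ_ae]
    unfold cellInt
    ring
  · rw [Set.indicator_of_notMem (show u ∉ Set.Ioi (0 : ℝ) from hu)]
    have e1 : ∀ x : (Fin (2 * m) → ℝ) × ℝ, (SD m).indicator (fun p =>
        ENNReal.ofReal ((hgt p ^ (m + 2))⁻¹) * S.indicator G p) (cellpt β c x u) = 0 := by
      intro x
      rw [Set.indicator_of_notMem]
      intro h
      have h' : 0 < hgt (cellpt β c x u) := h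
      rw [hgt_cellpt] at h'
      exact hu h'
    rw [lintegral_congr e1]
    simp

end Pool.Agent.Helper19.Un
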