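import Pool.Agent.Helper19.Un.Stmts

set_option autoImplicit false

/-!
# Module UNF : unfolding for a lattice in `U(m+1,1)`
(port of `Pool.Agent.Helper34.Pic.UNF`)
-/

namespace Pool.Agent.Helper19.Un

open MeasureTheory Topology
open scoped ComplexConjugate

variable {m : ℕ}

theorem unf_sum_kap {M : AddSubgroup (V m)} {κ : Pt m → ℝ} {C a : ℝ} (hK : Kap M κ C a) {p : Pt m}
    (hp : p ∈ SD m) : ∑' γ : Gam M, ENNReal.ofReal (κ (act γ p)) = 1 := by
  have h := hK.sum p hp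
  rw [← ENNReal.ofReal_tsum_of_nonneg (fun γ => hK.nonneg _) h.summable, h.tsum_eq,
    ENNReal.ofReal_one]

theorem st_UNF (hC : ST_CNT) (hM : ST_ME) (hP : ST_MP) : ST_UNF := by
  intro m M hLat κ C a hK η F hη hF hinv
  have hcount := hC m M hLat
  have hact := hM m
  have hκ : Measurable (fun p => ENNReal.ofReal (κ p)) :=
    ENNReal.measurable_ofReal.comp hK.smooth.continuous.measurable
  calc ∫⁻ p, η p * F p ∂(hyp m)
      = ∫⁻ p, ∑' γ : Gam M, ENNReal.ofReal (κ (act γ p)) * η p * F p ∂(hyp m) := by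
        refine lintegral_congr_ae ?_
        filter_upwards [ae_hyp_mem] with p hp
        simp only [mul_assoc]
        rw [ENNReal.tsum_mul_right, unf_sum_kap hK hp, one_mul]
    _ = ∑' γ : Gam M, ∫⁻ p, ENNReal.ofReal (κ (act γ p)) * η p * F p ∂(hyp m) := by
        refine lintegral_tsum fun γ => ?_
        exact (((hκ.comp (hact γ)).mul hη).mul hF).aemeasurable
    _ = ∑' γ : Gam M, ∫⁻ p, ENNReal.ofReal (κ p) * η (act (γ⁻¹ : Gam M) p) * F p ∂(hyp m) := by
        refine tsum_congr fun γ => ?_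
        have hm : Measurable (fun p => ENNReal.ofReal (κ (act (γ : V m ≃ₗ[ℂ] V m) p))
            * η p * F p) :=
          ((hκ.comp (hact γ)).mul hη).mul hF
        rw [← (hP m ((γ⁻¹ : Gam M) : V m ≃ₗ[ℂ] V m) (γ⁻¹ : Gam M).2.1).lintegral_comp hm]
        refine lintegral_congr_ae ?_
        filter_upwards [ae_hyp_mem] with p hp
        show ENNReal.ofReal (κ (act γ (act ((γ⁻¹ : Gam M) : V m ≃ₗ[ℂ] V m) p)))
          * η (act ((γ⁻¹ : Gam M) : V m ≃ₗ[ℂ] V m) p)
          * F (act ((γ⁻¹ : Gam M) : V m ≃ₗ[ℂ] V m) p) = _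
        have h1 : act (γ : V m ≃ₗ[ℂ] V m) (act ((γ⁻¹ : Gam M) : V m ≃ₗ[ℂ] V m) p) = p := by
          rw [← act_mul _ (γ⁻¹ : Gam M).2.1 hp, ← Subgroup.coe_mul,
            mul_inv_cancel, Subgroup.coe_one, act_one]
        rw [h1, hinv _ (γ⁻¹ : Gam M).2 p hp]
    _ = ∑' γ : Gam M, ∫⁻ p, ENNReal.ofReal (κ p) * η (act γ p) * F p ∂(hyp m) :=
        (Equiv.inv (Gam M)).tsum_eq
          (fun γ : Gam M => ∫⁻ p, ENNReal.ofReal (κ p) * η (act (γ : V m ≃ₗ[ℂ] V m) p)
            * F p ∂(hyp m))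
    _ = ∫⁻ p, ∑' γ : Gam M, ENNReal.ofReal (κ p) * η (act γ p) * F p ∂(hyp m) := by
        refine (lintegral_tsum fun γ => ?_).symm
        exact ((hκ.mul (hη.comp (hact γ))).mul hF).aemeasurable
    _ = _ := by
        refine lintegral_congr fun p => ?_
        rw [ENNReal.tsum_mul_right, ENNReal.tsum_mul_left]

end Pool.Agent.Helper19.Un
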